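import Mathlib
import Pool.Agent.helper7.DF.Spec

/-!
# Row df:NCY (helper15) of project DF (helper7)

The prime factors of the binomial coefficient are larger than `k`, so by the theorem of Kummer there are no carries.
-/

set_option autoImplicit false

open Finset

namespace Pool.Agent.DFO

private lemma NCY_prod (n k : ℕ) : ∏ i ∈ Icc 1 k, (n + i) = k.factorial * (n + k).choose k := by
  rw [← Nat.ascFactorial_eq_factorial_mul_choose, Nat.ascFactorial_eq_prod_range]
  induction k with
  | zero => simp
  | succ k ih =>
    rw [Finset.prod_Icc_succ_top (by omega), ih, Finset.prod_range_succ]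
    congr 1
    omega

/-- Row NCY: no carries. -/
theorem NCY : NCY_stmt := by
  intro n k a b _ hG p hp hpk e he
  by_contra hcon
  rw [not_lt] at hcon
  have hfac : 0 < k.factorial := Nat.factorial_pos k
  have h1 : (n + k).choose k = ∏ i ∈ Icc 1 k, b i := by
    have h2 : k.factorial * (n + k).choose k = k.factorial * ∏ i ∈ Icc 1 k, b i := by
      rw [← NCY_prod, Finset.prod_congr rfl hG.eq, Finset.prod_mul_distrib, hG.prod]
    exact Nat.eq_of_mul_eq_mul_left hfac h2
  have h3 : ¬ p ∣ (n + k).choose k := by
    rw [h1]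
    intro hd
    obtain ⟨i, hi, hdi⟩ := (Prime.dvd_finsetProd_iff hp.prime b).1 hd
    have := hG.big i hi p hp hdi
    omega
  have h4 : ((n + k).choose k).factorization p = 0 := Nat.factorization_eq_zero_of_not_dvd h3
  have h5 := Nat.factorization_choose' (p := p) (n := n) (k := k) (b := Nat.log p (n + k) + 1 + e) hp (by omega)
  rw [h4] at h5
  have h6 := Finset.card_eq_zero.1 h5.symm
  have h7 : e ∈ {i ∈ Ico 1 (Nat.log p (n + k) + 1 + e) | p ^ i ≤ k % p ^ i + n % p ^ i} := by
    rw [Finset.mem_filter, Finset.mem_Ico]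
    refine ⟨⟨he, by omega⟩, by omega⟩
  rw [h6] at h7
  exact absurd h7 (Finset.notMem_empty e)

end Pool.Agent.DFO
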